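import Mathlib

set_option autoImplicit false

/-!
# Self-complementary graphs: `F(G) = V(G)` and `N(G) = E(G)` do not force strong regularity

Every vertex-transitive self-complementary graph satisfies `F(G) = V(G)` and `N(G) = E(G)`.  The
circulant graph on 13 vertices with connection set `{±1, ±2, ±4}` is regular, self-complementary
and vertex-transitive, but not strongly regular.
-/

namespace Pool.Agent.Results.MP_a93e77_co.CirculantDisproof

variable {V : Type}

/-- `P` is an isomorphism-permutation of `G`: an isomorphism from `G` onto its complement. -/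
def IsIsoPerm (G : SimpleGraph V) (P : Equiv.Perm V) : Prop :=
  ∀ u v : V, u ≠ v → (G.Adj u v ↔ ¬ G.Adj (P u) (P v))

/-- `G` is self-complementary. -/
def SelfCompl (G : SimpleGraph V) : Prop := Nonempty (G ≃g Gᶜ)

/-- `F(G)`: the vertices fixed by at least one isomorphism-permutation. -/
def F (G : SimpleGraph V) : Set V := {v | ∃ P : Equiv.Perm V, IsIsoPerm G P ∧ P v = v}

/-- `N(G)`: the edges `uv` of `G` for which `P u = v` or `P v = u` for at least one
isomorphism-permutation `P`. -/
def N (G : SimpleGraph V) : Set (Sym2 V) :=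
  {e | e ∈ G.edgeSet ∧ ∃ P : Equiv.Perm V, IsIsoPerm G P ∧ ∃ u v : V, e = s(u, v) ∧
    (P u = v ∨ P v = u)}

/-- `G` is regular of some degree. -/
def Regular (G : SimpleGraph V) : Prop := ∃ d : ℕ, ∀ v : V, (G.neighborSet v).ncard = d

/-- All edges lie in the same number of triangles, and all pairs of distinct nonadjacent vertices
have the same number of common neighbours. -/
def StronglyReg (G : SimpleGraph V) : Prop :=
  (∃ l : ℕ, ∀ u v : V, G.Adj u v → (G.commonNeighbors u v).ncard = l) ∧
    ∃ m : ℕ, ∀ u v : V, u ≠ v → ¬ G.Adj u v → (G.commonNeighbors u v).ncard = m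

/-- `G` is vertex-transitive. -/
def VertexTransitive (G : SimpleGraph V) : Prop := ∀ u v : V, ∃ f : G ≃g G, f u = v

lemma exists_isoPerm {G : SimpleGraph V} (h : SelfCompl G) : ∃ P : Equiv.Perm V, IsIsoPerm G P := by
  obtain ⟨f⟩ := h
  refine ⟨f.toEquiv, fun u v huv => ?_⟩
  have h1 := f.map_rel_iff (a := u) (b := v)
  rw [SimpleGraph.compl_adj] at h1
  constructor
  · intro h2
    exact (h1.2 h2).2
  · intro h2
    exact h1.1 ⟨fun h3 => huv (f.injective h3), h2⟩

lemma isoPerm_comp {G : SimpleGraph V} {P : Equiv.Perm V} (h : IsIsoPerm G P) (f : G ≃g G) :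
    IsIsoPerm G (P.trans f.toEquiv) := by
  intro u v huv
  rw [h u v huv]
  have h1 := f.map_rel_iff (a := P u) (b := P v)
  exact not_congr h1.symm

/-- Vertex-transitive self-complementary graphs satisfy both of Kotzig's conditions; indeed for
any two vertices `u, v` some isomorphism-permutation maps `u` to `v`. -/
theorem vertexTransitive_conditions (G : SimpleGraph V) (hs : SelfCompl G)
    (ht : VertexTransitive G) : F G = Set.univ ∧ N G = G.edgeSet := by
  obtain ⟨P, hP⟩ := exists_isoPerm hs
  have key : ∀ u v : V, ∃ Q : Equiv.Perm V, IsIsoPerm G Q ∧ Q u = v := by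
    intro u v
    obtain ⟨f, hf⟩ := ht (P u) v
    exact ⟨P.trans f.toEquiv, isoPerm_comp hP f, hf⟩
  refine ⟨Set.eq_univ_of_forall fun v => key v v, ?_⟩
  ext e
  constructor
  · intro he
    exact he.1
  · intro he
    refine ⟨he, ?_⟩
    induction e using Sym2.ind with
    | _ u v =>
      obtain ⟨Q, hQ, hQv⟩ := key u v
      exact ⟨Q, hQ, u, v, rfl, Or.inl hQv⟩

/-- The circulant graph on `ZMod 13` with connection set `{±1, ±2, ±4}`. -/
def C13 : SimpleGraph (ZMod 13) where
  Adj u v := u - v ∈ ({1, 2, 4, 9, 11, 12} : Finset (ZMod 13))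
  symm := ⟨by decide⟩
  loopless := ⟨by decide⟩

instance : DecidableRel C13.Adj := fun u v =>
  inferInstanceAs (Decidable (u - v ∈ ({1, 2, 4, 9, 11, 12} : Finset (ZMod 13))))

lemma C13_transitive : VertexTransitive C13 := by
  intro u v
  refine ⟨⟨Equiv.addRight (v - u), ?_⟩, ?_⟩
  · intro a b
    show (a + (v - u)) - (b + (v - u)) ∈ _ ↔ a - b ∈ _
    rw [add_sub_add_right_eq_sub]
  · show u + (v - u) = v
    ring

def mulEight : ZMod 13 ≃ ZMod 13 where
  toFun x := 8 * x
  invFun x := 5 * x
  left_inv := by decide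
  right_inv := by decide

lemma C13_selfCompl : SelfCompl C13 := by
  refine ⟨⟨mulEight, ?_⟩⟩
  intro a b
  rw [SimpleGraph.compl_adj]
  revert a b
  decide

instance (u : ZMod 13) : DecidablePred (· ∈ C13.neighborSet u) := fun v =>
  inferInstanceAs (Decidable (C13.Adj u v))

instance (u v : ZMod 13) : DecidablePred (· ∈ C13.commonNeighbors u v) := fun w =>
  inferInstanceAs (Decidable (C13.Adj u w ∧ C13.Adj v w))

lemma C13_regular : Regular C13 := by
  refine ⟨6, ?_⟩
  intro v
  rw [Set.ncard_eq_toFinset_card']
  revert v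
  decide

lemma C13_common_01 : (C13.commonNeighbors 0 1).ncard = 2 := by
  rw [Set.ncard_eq_toFinset_card']
  decide

lemma C13_common_02 : (C13.commonNeighbors 0 2).ncard = 3 := by
  rw [Set.ncard_eq_toFinset_card']
  decide

lemma C13_not_stronglyReg : ¬ StronglyReg C13 := by
  rintro ⟨⟨l, hl⟩, -⟩
  have h1 := hl 0 1 (by decide)
  have h2 := hl 0 2 (by decide)
  rw [C13_common_01] at h1
  rw [C13_common_02] at h2
  omega

/-- **Theorem.** Kotzig's characterisation fails: there is a finite regular self-complementary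
graph with `F(G) = V(G)` and `N(G) = E(G)` that is not strongly regular. -/
theorem result : ¬ ∀ (V : Type) (_ : Fintype V) (G : SimpleGraph V),
    Regular G → SelfCompl G → (StronglyReg G ↔ (F G = Set.univ ∧ N G = G.edgeSet)) := by
  intro h
  have h1 := h (ZMod 13) inferInstance C13 C13_regular C13_selfCompl
  exact C13_not_stronglyReg
    (h1.2 (vertexTransitive_conditions C13 C13_selfCompl C13_transitive))

end Pool.Agent.Results.MP_a93e77_co.CirculantDisproof
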